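import Pool.Agent.helper66.LE.Main2

/-!
# In high dimension the time constant of Bernoulli first passage percolation is not differentiable

MP_d04c2c_pr.  `law d p` is the law of independent edge weights on `ℤ^d`, equal to `1` with probability `p` and to
`0` with probability `1 - p`; `T` is the first passage time; `IsTimeConst d p g` says that `T(0, n e₁) / n → g`
almost surely; `pcrit d` is the critical probability of Bernoulli bond percolation on `ℤ^d`.  For all
sufficiently large `d` the time constant `g` exists, vanishes on `[0, 1 - pcrit d]`, satisfies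
`g(1 - pcrit d + ε) ≥ c sqrt(ε) / log(1 / ε)` and `g(1 - pcrit d + ε) ≤ ε^(1/2 - η)` for small `ε`, so that its
critical exponent is `1/2`, and `g` is not differentiable at `1 - pcrit d`.

The proof is complete: it contains the lace expansion for percolation on the discrete torus (helper64 and
others), the sharpness of the phase transition, a differential inequality for the tilted susceptibility, Kingman's
theorem and a multiscale construction of fast paths.
-/

open Filter Topology Pool.Agent.helper66.LE

theorem Pool.Agent.Results.MP_d04c2c_pr.NotDifferentiable.result :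
    ∃ d₀ : ℕ, ∀ d ≥ d₀, ∀ [NeZero d], ∃ g : ℝ → ℝ,
      (∀ p, 0 ≤ p → p ≤ 1 → IsTimeConst d p (g p)) ∧
      0 < pcrit d ∧ pcrit d < 1 ∧
      (∀ p, 0 ≤ p → p ≤ 1 - pcrit d → g p = 0) ∧
      (∃ c ε₀ : ℝ, 0 < c ∧ 0 < ε₀ ∧ ∀ ε, 0 < ε → ε < ε₀ →
        c * Real.sqrt ε / Real.log (1 / ε) ≤ g (1 - pcrit d + ε)) ∧
      (∀ η : ℝ, 0 < η → ∃ ε₀ : ℝ, 0 < ε₀ ∧ ∀ ε, 0 < ε → ε < ε₀ →
        g (1 - pcrit d + ε) ≤ ε ^ (1 / 2 - η)) ∧
      Tendsto (fun ε => Real.log (g (1 - pcrit d + ε)) / Real.log ε) (𝓝[>] 0) (𝓝 (1 / 2)) ∧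
      ¬ DifferentiableAt ℝ g (1 - pcrit d) :=
  main2
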